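import Pool.Agent.helper17.CH.SpecB
import Pool.Agent.helper46.GD.BV2

/-!
# Row ch:TY1: characters of large conductor in the windows, trivial bound for one progression
-/

set_option autoImplicit false

namespace Pool.Agent.CH

open Finset ArithmeticFunction
open GD (kp ks)

private theorem TY1_win (d y n : ℕ) (hd : 0 < d) :
    ((Ioc 0 y).filter fun b => d * b ∈ Win n) =
      Ioc (min y (n ^ 3 / d)) (min y ((n + 1) ^ 3 / d)) := by
  ext b
  unfold Win
  rw [mem_filter, mem_Ioc, mem_Ioc, mem_Ioc]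
  have h1 : n ^ 3 < d * b ↔ n ^ 3 / d < b := by
    rw [Nat.div_lt_iff_lt_mul hd, mul_comm]
  have h2 : d * b ≤ (n + 1) ^ 3 ↔ b ≤ (n + 1) ^ 3 / d := by
    rw [Nat.le_div_iff_mul_le hd, mul_comm]
  rw [h1, h2]
  generalize n ^ 3 / d = u
  generalize (n + 1) ^ 3 / d = w
  omega

private theorem TY1_one (R M a d y n : ℕ) (hR : 1 ≤ R) (hM : 0 < M) :
    |∑ b ∈ (Ioc 0 y).filter (fun b => d * b ∈ Win n), kp R M a (d * b)| ≤
      4 * R * #M.divisors := by
  rcases Nat.eq_zero_or_pos d with hd | hd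
  · subst hd
    rw [sum_eq_zero]
    · rw [abs_zero]
      positivity
    · intro b hb
      exfalso
      have := (mem_filter.1 hb).2
      unfold Win at this
      rw [mem_Ioc] at this
      omega
  · rw [TY1_win d y n hd]
    have h1 : min y (n ^ 3 / d) ≤ min y ((n + 1) ^ 3 / d) :=
      min_le_min_left _ (Nat.div_le_div_right (Nat.pow_le_pow_left (Nat.le_succ n) 3))
    have h3 := sum_Ioc_consecutive (fun b => kp R M a (d * b)) (Nat.zero_le _) h1
    have h4 := (GD.BV2 R M a hR hM).2 d (min y (n ^ 3 / d))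
    have h5 := (GD.BV2 R M a hR hM).2 d (min y ((n + 1) ^ 3 / d))
    rw [abs_le] at h4 h5 ⊢
    constructor
    · linarith [h4.1, h4.2, h5.1, h5.2]
    · linarith [h4.1, h4.2, h5.1, h5.2]

theorem TY1 : TY1_stmt := by
  intro N c R M a d y hc hR hM
  have e : ∑ b ∈ Ioc 0 y, cc N c (d * b) * kp R M a (d * b) =
      ∑ n ∈ Ico N (2 * N), c n * ∑ b ∈ (Ioc 0 y).filter (fun b => d * b ∈ Win n), kp R M a (d * b) := by
    unfold cc
    simp only [sum_mul, mul_sum]
    rw [sum_comm]
    refine sum_congr rfl fun n _ => ?_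
    rw [sum_filter]
    refine sum_congr rfl fun b _ => ?_
    split_ifs <;> simp
  rw [e]
  calc |∑ n ∈ Ico N (2 * N), c n * ∑ b ∈ (Ioc 0 y).filter (fun b => d * b ∈ Win n), kp R M a (d * b)|
      ≤ ∑ n ∈ Ico N (2 * N), |c n * ∑ b ∈ (Ioc 0 y).filter (fun b => d * b ∈ Win n), kp R M a (d * b)| :=
        abs_sum_le_sum_abs _ _
    _ ≤ ∑ _n ∈ Ico N (2 * N), (4 * (R : ℝ) * (#M.divisors : ℝ)) := by
        refine sum_le_sum fun n _ => ?_
        rw [abs_mul]
        calc _ ≤ 1 * |∑ b ∈ (Ioc 0 y).filter (fun b => d * b ∈ Win n), kp R M a (d * b)| :=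
              mul_le_mul_of_nonneg_right (hc n) (abs_nonneg _)
          _ ≤ 4 * R * #M.divisors := by
              rw [one_mul]
              exact TY1_one R M a d y n hR hM
    _ = 4 * N * R * #M.divisors := by
        rw [sum_const, Nat.card_Ico, nsmul_eq_mul]
        have : ((2 * N - N : ℕ) : ℝ) = N := by
          rw [show 2 * N - N = N by omega]
        rw [this]
        ring

end Pool.Agent.CH
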